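import Pool.Agent.Lib.MP_6c0529_co.UpperBound

set_option autoImplicit false

namespace Pool.Agent.Results.MP_6c0529_co.Separation

open Pool.Agent.Lib.MP_6c0529_co

/-- At size `n = 7` the two minima differ: some pair of semilabeled binary trees of size `7` has at
most `125` common induced partitions, while every pair of caterpillars of size `7` has at least
`126`. In particular `s 7 < c 7`, so `s n = c n` fails at `n = 7`. -/
theorem result : s 7 ≤ 125 ∧ 126 ≤ c 7 := ⟨s_le, le_c⟩

/-- Sanity check: the infimum defining `s 7` is over a nonempty set, hence is attained. -/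
theorem s_attained : ∃ T F : SLTree 7, s 7 = (T.parts ∩ F.parts).ncard :=
  Nat.sInf_mem (s := {k | ∃ T F : SLTree 7, k = (T.parts ∩ F.parts).ncard}) ⟨_, T0, F0, rfl⟩

/-- Sanity check: the infimum defining `c 7` is over a nonempty set, hence is attained. -/
theorem c_attained : ∃ T F : SLTree 7, T.IsCaterpillar ∧ F.IsCaterpillar ∧
    c 7 = (T.parts ∩ F.parts).ncard :=
  Nat.sInf_mem (s := {k | ∃ T F : SLTree 7, T.IsCaterpillar ∧ F.IsCaterpillar ∧
    k = (T.parts ∩ F.parts).ncard}) ⟨_, T0, T0, T0_caterpillar, T0_caterpillar, rfl⟩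

end Pool.Agent.Results.MP_6c0529_co.Separation
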